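import Pool.Agent.Y80.KI.AltFin
import Pool.Agent.Y80.KI.Comp
import Pool.Agent.Y80.KI.Adim

set_option autoImplicit false

/-! Homology of the Allison-Benkart-Gao Lie algebra of the free alternative algebra on a space `V`
of any dimension `d ≥ 2`. If the total multiplicity of the trivial and of the adjoint module in
the spaces `H_p`, `p ≥ 2`, were finite, the Euler characteristic would give a functional equation
for the graded dimensions `2 ^ n` of `Alt(k^2)` with polynomial right hand sides. It is refuted by
analytic continuation of both sides past the pole `t = 1/2` and by the asymptotics of the two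
integrals over the torus on the two sides of the pole. -/

namespace Pool.Agent.Results.MP_894cc0_al.InfiniteMultiplicity

open Pool.Agent.Y80.KM Pool.Agent.Y80.KI

universe u

/-- There is a free alternative algebra on `d` generators over `k`. -/
def FreeAltExists (k : Type u) [Field k] (d : ℕ) : Prop :=
  ∃ (A : Type u) (_ : NonUnitalNonAssocRing A) (_ : Module k A) (_ : IsScalarTower k A A)
    (_ : SMulCommClass k A A) (x : Fin d → A), IsFreeAlt k x

/-- The Lie algebra `ABG(A) = sl_3 ⊗ A ⊕ B(A)` exists, with its action of `sl_3`. -/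
def ABGExists (k A : Type u) [Field k] [NonUnitalNonAssocRing A] [Module k A] : Prop :=
  ∃ (L : Type u) (_ : LieRing L) (_ : LieAlgebra k L) (s : Sl 3 k →ₗ[k] A →ₗ[k] L)
    (w : BSp k A →ₗ[k] L) (E : Sl 3 k → L →ₗ[k] L), IsABG s w ∧ IsSlAct s w E

/-- Let `k` be any field of characteristic zero, `dim V = d ≥ 2`, `A = Alt(V)` the free
alternative algebra (which exists) and `L = ABG(A) = sl_3 ⊗ A ⊕ B(A)` (which exists), with the
action `E` of `sl_3`. For some `p ≥ 2` the `sl_3`-module `H_p(L, k)` contains a trivial or an
adjoint component. Moreover the total multiplicity of these two modules in all the spaces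
`H_p(L, k)`, `p ≥ 2`, is infinite: either for infinitely many `p` there is such a component in
`H_p(L, k)`, or for some `p ≥ 2` one of the spaces `H_p(L, k)^{sl_3}` and
`Hom_{sl_3}(sl_3, H_p(L, k))` is infinite-dimensional. -/
theorem result (k : Type u) [Field k] [CharZero k] (d : ℕ) (hd : 2 ≤ d) :
    FreeAltExists k d ∧
    ∀ (A : Type u) [NonUnitalNonAssocRing A] [Module k A] [IsScalarTower k A A]
      [SMulCommClass k A A] (x : Fin d → A), IsFreeAlt k x → ABGExists k A ∧
      ∀ (L : Type u) [LieRing L] [LieAlgebra k L] (s : Sl 3 k →ₗ[k] A →ₗ[k] L)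
        (w : BSp k A →ₗ[k] L) (E : Sl 3 k → L →ₗ[k] L), IsABG s w → ∀ h : IsSlAct s w E,
      (∃ p, 2 ≤ p ∧ HasH E h.der p) ∧ ¬ FinH E h.der :=
  ⟨⟨FreeAlt k d, inferInstance, inferInstance, inferInstance, inferInstance, _,
    Pool.Agent.Y681.KM.freeAlt_isFree k d⟩,
    fun _ _ _ _ _ _ hx => ⟨exists_abg hx.1, fun _ _ _ _ _ E hL h =>
      have h1 : ¬ FinH E h.der := fun hf =>
        alt_inf (fun n hn => alt_two n hn) hd hx hL h (finH_prop hf)
      ⟨exists_hasH h1, h1⟩⟩⟩

end Pool.Agent.Results.MP_894cc0_al.InfiniteMultiplicity
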